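import Pool.Agent.Burnside6.Zp

set_option autoImplicit false

namespace Pool.Agent.Results.MP_5355f8_al.Exists

/-- There are a prime `p` and a torsionfree Hausdorff topological group `G` whose center is open and
topologically isomorphic to the additive group of `p`-adic integers, such that `G / Z(G)` is an
infinite `p`-group none of whose subgroups admits a non-discrete Hausdorff group topology. -/
theorem result : ∃ (p : ℕ) (_ : Fact p.Prime) (G : Type) (_ : Group G) (_ : TopologicalSpace G),
    IsTopologicalGroup G ∧ T2Space G ∧ (∀ g : G, IsOfFinOrder g → g = 1) ∧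
    IsOpen (Subgroup.center G : Set G) ∧
    Nonempty (Subgroup.center G ≃ₜ* Multiplicative ℤ_[p]) ∧
    Infinite (G ⧸ Subgroup.center G) ∧ IsPGroup p (G ⧸ Subgroup.center G) ∧
    ∀ (H : Subgroup (G ⧸ Subgroup.center G)) (t : TopologicalSpace H),
      @IsTopologicalGroup H t _ → @T2Space H t → t = ⊥ :=
  Burnside6.main_zp

end Pool.Agent.Results.MP_5355f8_al.Exists
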